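import Pool.Agent.H57.EQ.Targets
import Pool.Agent.H68.GC.OLF0

/-!
# Row GTM: the binary polymorphism of the template
-/

set_option autoImplicit false

namespace Pool.Agent.H81.EQM

open Pool.Agent.H68.BP Pool.Agent.H58.SF Pool.Agent.H53.GC Pool.Agent.H57.EQ
open Function

theorem bin_none {X : Type} {t2 : Bool → X → X → X} {t10 t01 : X → X} {e : Bool}
    {a b : Option X} (h : bin t2 t10 t01 e a b = none) : a = none ∧ b = none := by
  cases a <;> cases b <;> simp_all [bin]

open Classical in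
/-- the tournament on the values of `ψ` -/
noncomputable def trn {V W : Type} [LinearOrder V] (ψ : W → V) (x : Fin 2 → W → V)
    (T : Fin 2 → V → V → Bool) (v v' : V) : Bool :=
  if (∃ a, ψ a = v) ∧ ∃ b, ψ b = v' then
    (if extend ψ (x 0) id v = extend ψ (x 0) id v'
      then T 1 (extend ψ (x 1) id v) (extend ψ (x 1) id v')
      else T 0 (extend ψ (x 0) id v) (extend ψ (x 0) id v'))
  else decide (v < v')

theorem pf_GTM : T_GTM := by
  classical
  intro σ V X _ 𝔸 M c fr hS t2 t10 t01 hBV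
  unfold tpl
  rw [Pool.Agent.H68.GC.poly_strOn]
  intro s q hq
  choose x T hrel htour hq using hq
  obtain ⟨ψ, hψ, hc⟩ := hBV (Fin (arP σ M s)) x T htour
  have hinj : ∀ a b, ψ a = ψ b → x 0 a = x 0 b ∧ x 1 a = x 1 b := by
    intro a b hab
    have h1 := hc a b
    rw [(hS.col.none_iff _ _).2 hab] at h1
    obtain ⟨h2, h3⟩ := bin_none h1.symm
    exact ⟨(hS.col.none_iff _ _).1 h2, (hS.col.none_iff _ _).1 h3⟩
  have e0 : ∀ a, extend ψ (x 0) id (ψ a) = x 0 a := fun a =>
    FactorsThrough.extend_apply (fun a b hab => (hinj a b hab).1) _ _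
  have e1 : ∀ a, extend ψ (x 1) id (ψ a) = x 1 a := fun a =>
    FactorsThrough.extend_apply (fun a b hab => (hinj a b hab).2) _ _
  have hT : ∀ a b, trn ψ x T (ψ a) (ψ b) =
      if x 0 a = x 0 b then T 1 (x 1 a) (x 1 b) else T 0 (x 0 a) (x 0 b) := by
    intro a b
    unfold trn
    rw [if_pos ⟨⟨a, rfl⟩, ⟨b, rfl⟩⟩, e0, e0, e1, e1]
  refine ⟨ψ, trn ψ x T, ?_, ?_, ?_⟩
  · cases s with
    | none => trivial
    | some l => exact hψ l id (fun i => hrel i)
  · intro v v' hvv
    by_cases h : (∃ a, ψ a = v) ∧ ∃ b, ψ b = v'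
    · obtain ⟨⟨a, rfl⟩, b, rfl⟩ := h
      rw [hT, hT]
      by_cases h0 : x 0 a = x 0 b
      · rw [if_pos h0, if_pos h0.symm]
        apply htour
        intro h1
        apply hvv
        rw [← hS.col.none_iff, hc, (hS.col.none_iff _ _).2 h0, (hS.col.none_iff _ _).2 h1]
        rfl
      · rw [if_neg h0, if_neg (Ne.symm h0)]
        exact htour 0 _ _ h0
    · have h' : ¬ ((∃ a, ψ a = v') ∧ ∃ b, ψ b = v) := fun hh => h ⟨hh.2, hh.1⟩
      unfold trn
      rw [if_neg h, if_neg h']
      rcases lt_or_gt_of_ne hvv with h1 | h1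
      · simp [h1, h1.le]
      · simp [h1, h1.le]
  · intro a b
    show gbin t2 t10 t01 (q 0 (a, b)) (q 1 (a, b)) = _
    rw [hq 0 a b, hq 1 a b, hT a b, hc a b]
    cases h0 : c (x 0 a) (x 0 b) with
    | none =>
      rw [if_pos ((hS.col.none_iff _ _).1 h0)]
      cases h1 : c (x 1 a) (x 1 b) with
      | none => rfl
      | some t1 => rfl
    | some t0 =>
      have hne : x 0 a ≠ x 0 b := fun hh => by
        rw [(hS.col.none_iff _ _).2 hh] at h0
        cases h0
      rw [if_neg hne]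
      cases h1 : c (x 1 a) (x 1 b) with
      | none => rfl
      | some t1 => rfl

end Pool.Agent.H81.EQM
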